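import Pool.Agent.H37.CTL.Stmts

/-! Row T34 of board ctl (helper37): an irreducible subgroup of `SL_3(F)` containing all transvections with
centre `F e_0` is `SL_3(F)`. -/

set_option autoImplicit false

namespace Pool.CND

namespace T34

open Matrix

variable {F : Type} [Field F] (G₀ : Subgroup (Matrix.SpecialLinearGroup (Fin 3) F))

/-- the element of `SL_3(F)` -/
def mk {F : Type} [Field F] (M : Matrix (Fin 3) (Fin 3) F) (h : M.det = 1) :
    Matrix.SpecialLinearGroup (Fin 3) F := ⟨M, h⟩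

/-- a matrix of determinant one that lies in the group -/
def InG (M : Matrix (Fin 3) (Fin 3) F) : Prop :=
  ∃ h : M.det = 1, mk M h ∈ G₀

theorem InG.mul {M N : Matrix (Fin 3) (Fin 3) F} (hM : InG G₀ M) (hN : InG G₀ N) :
    InG G₀ (M * N) := by
  obtain ⟨h1, h1'⟩ := hM
  obtain ⟨h2, h2'⟩ := hN
  refine ⟨by rw [det_mul, h1, h2, one_mul], ?_⟩
  exact G₀.mul_mem h1' h2'

theorem InG.one : InG G₀ (1 : Matrix (Fin 3) (Fin 3) F) :=
  ⟨det_one, G₀.one_mem⟩

theorem InG.listProd (L : List (Matrix (Fin 3) (Fin 3) F)) (h : ∀ M ∈ L, InG G₀ M) :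
    InG G₀ L.prod := by
  induction L with
  | nil => simpa using InG.one G₀
  | cons a l ih =>
    rw [List.prod_cons]
    exact InG.mul G₀ (h a (by simp)) (ih (fun M hM => h M (by simp [hM])))

/-- all transvections with centre `v` are in the group -/
def Cen (v : Fin 3 → F) : Prop :=
  ∀ φ : Fin 3 → F, φ ⬝ᵥ v = 0 → InG G₀ (1 + vecMulVec v φ)

theorem det_tv (v φ : Fin 3 → F) (h : φ ⬝ᵥ v = 0) :
    (1 + vecMulVec v φ : Matrix (Fin 3) (Fin 3) F).det = 1 := by
  simp only [dotProduct, Fin.sum_univ_three] at h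
  rw [det_fin_three]
  simp only [Matrix.add_apply, vecMulVec_apply, Matrix.one_apply]
  simp
  linear_combination h

theorem cen_zero : Cen G₀ (0 : Fin 3 → F) := by
  intro φ _
  have : (1 + vecMulVec (0 : Fin 3 → F) φ : Matrix (Fin 3) (Fin 3) F) = 1 := by
    ext i j
    simp
  rw [this]
  exact InG.one G₀

theorem cen_smul (c : F) (v : Fin 3 → F) (h : Cen G₀ v) : Cen G₀ (c • v) := by
  by_cases hc : c = 0
  · rw [hc, zero_smul]
    exact cen_zero G₀
  intro φ hφ
  have h0 : (c • φ) ⬝ᵥ v = 0 := by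
    rw [smul_dotProduct, ← dotProduct_smul]
    exact hφ
  have := h (c • φ) h0
  have e : vecMulVec v (c • φ) = vecMulVec (c • v) φ := by
    ext i j
    simp [vecMulVec_apply]
    ring
  rwa [e] at this

theorem cen_act (g : Matrix.SpecialLinearGroup (Fin 3) F) (hg : g ∈ G₀) (v : Fin 3 → F)
    (h : Cen G₀ v) : Cen G₀ (g.1.mulVec v) := by
  intro φ hφ
  have h0 : (φ ᵥ* g.1) ⬝ᵥ v = 0 := by
    rw [← dotProduct_mulVec]
    exact hφ
  have hk := h (φ ᵥ* g.1) h0
  obtain ⟨hd, hm⟩ := hk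
  refine ⟨det_tv _ _ hφ, ?_⟩
  have e1 : mk (1 + vecMulVec (g.1.mulVec v) φ) (det_tv _ _ hφ) * g
      = g * mk (1 + vecMulVec v (φ ᵥ* g.1)) hd := by
    apply Subtype.ext
    show (1 + vecMulVec (g.1.mulVec v) φ) * g.1 = g.1 * (1 + vecMulVec v (φ ᵥ* g.1))
    rw [add_mul, mul_add, one_mul, mul_one, vecMulVec_mul, mul_vecMulVec]
  have e : mk (1 + vecMulVec (g.1.mulVec v) φ) (det_tv _ _ hφ)
      = g * mk (1 + vecMulVec v (φ ᵥ* g.1)) hd * g⁻¹ := eq_mul_inv_of_mul_eq e1
  rw [e]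
  exact G₀.mul_mem (G₀.mul_mem hg hm) (G₀.inv_mem hg)

theorem cen_add (v w : Fin 3 → F) (hv : Cen G₀ v) (hw : Cen G₀ w) : Cen G₀ (v + w) := by
  by_cases hv0 : v = 0
  · rw [hv0, zero_add]
    exact hw
  by_cases hex : ∃ φ : Fin 3 → F, φ ⬝ᵥ v = 0 ∧ φ ⬝ᵥ w ≠ 0
  · obtain ⟨φ, h1, h2⟩ := hex
    have h3 : ((φ ⬝ᵥ w)⁻¹ • φ) ⬝ᵥ v = 0 := by
      rw [smul_dotProduct, h1, smul_zero]
    have h4 : ((φ ⬝ᵥ w)⁻¹ • φ) ⬝ᵥ w = 1 := by
      rw [smul_dotProduct, smul_eq_mul]
      exact inv_mul_cancel₀ h2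
    obtain ⟨hd, hm⟩ := hv _ h3
    have := cen_act G₀ _ hm w hw
    change Cen G₀ ((1 + vecMulVec v ((φ ⬝ᵥ w)⁻¹ • φ) : Matrix (Fin 3) (Fin 3) F).mulVec w) at this
    have e : (1 + vecMulVec v ((φ ⬝ᵥ w)⁻¹ • φ) : Matrix (Fin 3) (Fin 3) F).mulVec w = v + w := by
      rw [add_mulVec, one_mulVec, vecMulVec_mulVec, h4]
      simp [add_comm]
    rwa [e] at this
  · push Not at hex
    obtain ⟨i, hi⟩ : ∃ i, v i ≠ 0 := by
      by_contra hcon
      push Not at hcon
      exact hv0 (funext hcon)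
    have hw' : w = (w i / v i) • v := by
      funext j
      have h5 := hex (v i • Pi.single j 1 - v j • Pi.single i 1) (by
        rw [sub_dotProduct, smul_dotProduct, smul_dotProduct, single_dotProduct, single_dotProduct]
        simp only [smul_eq_mul]
        ring)
      rw [sub_dotProduct, smul_dotProduct, smul_dotProduct, single_dotProduct,
        single_dotProduct] at h5
      simp only [smul_eq_mul, one_mul] at h5
      simp only [Pi.smul_apply, smul_eq_mul]
      field_simp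
      linear_combination h5
    have e : v + w = (1 + w i / v i) • v := by
      conv_lhs => rw [hw']
      rw [add_smul, one_smul]
    rw [e]
    exact cen_smul G₀ _ v hv

theorem cen_all (hirr : ∀ U : Submodule F (Fin 3 → F),
      (∀ g ∈ G₀, ∀ u ∈ U, g.1.mulVec u ∈ U) → U = ⊥ ∨ U = ⊤)
    (h0 : Cen G₀ (Pi.single 0 1)) (v : Fin 3 → F) : Cen G₀ v := by
  let U : Submodule F (Fin 3 → F) :=
    { carrier := {v | Cen G₀ v}
      add_mem' := fun {a b} ha hb => cen_add G₀ a b ha hb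
      zero_mem' := cen_zero G₀
      smul_mem' := fun c x hx => cen_smul G₀ c x hx }
  have hU := hirr U (fun g hg u hu => cen_act G₀ g hg u hu)
  have hm : (Pi.single 0 1 : Fin 3 → F) ∈ U := h0
  rcases hU with hU | hU
  · rw [hU, Submodule.mem_bot] at hm
    have := congrFun hm 0
    simp at this
  · have : v ∈ U := by
      rw [hU]
      trivial
    exact this

theorem inG_transvection (hall : ∀ v : Fin 3 → F, Cen G₀ v) (i j : Fin 3) (hij : i ≠ j) (c : F) :
    InG G₀ (transvection i j c) := by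
  have h := hall (Pi.single i c) (Pi.single j 1) (by
    rw [single_dotProduct, Pi.single_eq_of_ne' hij]
    simp)
  have e : (1 + vecMulVec (Pi.single i c) (Pi.single j 1) : Matrix (Fin 3) (Fin 3) F)
      = transvection i j c := by
    ext a b
    simp only [transvection, Matrix.add_apply, vecMulVec_apply, Matrix.single_apply, Pi.single_apply]
    by_cases ha : a = i
    · by_cases hb : b = j
      · simp [ha, hb]
      · have hb' : ¬ j = b := fun h => hb h.symm
        simp [ha, hb, hb']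
    · have ha' : ¬ i = a := fun h => ha h.symm
      simp [ha, ha']
  rwa [e] at h

theorem inG_h01 (hall : ∀ v : Fin 3 → F, Cen G₀ v) (a : F) (ha : a ≠ 0) :
    InG G₀ !![a, 0, 0; 0, a⁻¹, 0; 0, 0, 1] := by
  have T := inG_transvection G₀ hall
  have h := InG.mul G₀ (InG.mul G₀ (InG.mul G₀ (InG.mul G₀ (InG.mul G₀ (T 0 1 (by decide) a)
    (T 1 0 (by decide) (-a⁻¹))) (T 0 1 (by decide) a)) (T 0 1 (by decide) (-1)))
    (T 1 0 (by decide) 1)) (T 0 1 (by decide) (-1))
  have e : transvection (0 : Fin 3) 1 a * transvection 1 0 (-a⁻¹) * transvection 0 1 a *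
      transvection 0 1 (-1) * transvection 1 0 1 * transvection 0 1 (-1)
      = !![a, 0, 0; 0, a⁻¹, 0; 0, 0, 1] := by
    ext i j
    fin_cases i <;> fin_cases j <;>
      simp [transvection, Matrix.mul_apply, Fin.sum_univ_three, Matrix.one_apply,
        Matrix.single_apply, ha]
  rwa [e] at h

theorem inG_h12 (hall : ∀ v : Fin 3 → F, Cen G₀ v) (a : F) (ha : a ≠ 0) :
    InG G₀ !![1, 0, 0; 0, a, 0; 0, 0, a⁻¹] := by
  have T := inG_transvection G₀ hall
  have h := InG.mul G₀ (InG.mul G₀ (InG.mul G₀ (InG.mul G₀ (InG.mul G₀ (T 1 2 (by decide) a)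
    (T 2 1 (by decide) (-a⁻¹))) (T 1 2 (by decide) a)) (T 1 2 (by decide) (-1)))
    (T 2 1 (by decide) 1)) (T 1 2 (by decide) (-1))
  have e : transvection (1 : Fin 3) 2 a * transvection 2 1 (-a⁻¹) * transvection 1 2 a *
      transvection 1 2 (-1) * transvection 2 1 1 * transvection 1 2 (-1)
      = !![1, 0, 0; 0, a, 0; 0, 0, a⁻¹] := by
    ext i j
    fin_cases i <;> fin_cases j <;>
      simp [transvection, Matrix.mul_apply, Fin.sum_univ_three, Matrix.one_apply,
        Matrix.single_apply, ha]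
  rwa [e] at h

theorem inG_diag (hall : ∀ v : Fin 3 → F, Cen G₀ v) (D : Fin 3 → F)
    (hD : (diagonal D).det = 1) : InG G₀ (diagonal D) := by
  rw [det_diagonal, Fin.prod_univ_three] at hD
  have h0 : D 0 ≠ 0 := by
    intro h
    rw [h] at hD
    simp at hD
  have h1 : D 1 ≠ 0 := by
    intro h
    rw [h] at hD
    simp at hD
  have h := InG.mul G₀ (inG_h01 G₀ hall (D 0) h0) (inG_h12 G₀ hall (D 0 * D 1) (mul_ne_zero h0 h1))
  have h2 : D 2 = (D 0 * D 1)⁻¹ := eq_inv_of_mul_eq_one_right hD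
  have e : (!![D 0, 0, 0; 0, (D 0)⁻¹, 0; 0, 0, 1] : Matrix (Fin 3) (Fin 3) F) *
      !![1, 0, 0; 0, D 0 * D 1, 0; 0, 0, (D 0 * D 1)⁻¹] = diagonal D := by
    rw [← h2]
    ext i j
    fin_cases i <;> fin_cases j <;>
      simp [Matrix.mul_apply, Fin.sum_univ_three, h0]
  rwa [e] at h

end T34

theorem t34_thm : S_T34 := by
  intro F _ _ G₀ hirr htr
  have h0 : T34.Cen G₀ (Pi.single 0 1) := by
    intro φ hφ
    refine ⟨T34.det_tv _ _ hφ, htr _ ?_ ?_⟩
    · intro i j hi
      show (1 + Matrix.vecMulVec (Pi.single 0 1) φ : Matrix (Fin 3) (Fin 3) F) i j = _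
      rw [Matrix.add_apply, Matrix.vecMulVec_apply, Pi.single_eq_of_ne hi, zero_mul, add_zero,
        Matrix.one_apply]
    · show (1 + Matrix.vecMulVec (Pi.single 0 1) φ : Matrix (Fin 3) (Fin 3) F) 0 0 = 1
      have h1 : φ 0 = 0 := by
        simpa using hφ
      rw [Matrix.add_apply, Matrix.vecMulVec_apply, h1, mul_zero, add_zero, Matrix.one_apply_eq]
  have hall := T34.cen_all G₀ hirr h0
  rw [eq_top_iff]
  intro g _
  obtain ⟨L, L', D, hM⟩ := Matrix.Pivot.exists_list_transvec_mul_diagonal_mul_list_transvec g.1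
  have hT : ∀ L : List (Matrix.TransvectionStruct (Fin 3) F),
      T34.InG G₀ (L.map Matrix.TransvectionStruct.toMatrix).prod := by
    intro L
    apply T34.InG.listProd
    intro M hM
    rw [List.mem_map] at hM
    obtain ⟨t, _, rfl⟩ := hM
    exact T34.inG_transvection G₀ hall t.i t.j t.hij t.c
  have hdet : (Matrix.diagonal D).det = 1 := by
    have h1 := g.2
    rw [hM, Matrix.det_mul, Matrix.det_mul, Matrix.TransvectionStruct.det_toMatrix_prod,
      Matrix.TransvectionStruct.det_toMatrix_prod, one_mul, mul_one] at h1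
    exact h1
  have := T34.InG.mul G₀ (T34.InG.mul G₀ (hT L) (T34.inG_diag G₀ hall D hdet)) (hT L')
  rw [← hM] at this
  obtain ⟨_, hg⟩ := this
  exact hg

end Pool.CND
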